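import Mathlib

set_option autoImplicit false

namespace CIT60

open Module

/-- The monomial `y^a`. -/
noncomputable def mon {n : ℕ} {K : Type} [Field K] (y : Fin n → K) (a : Fin n → ℤ) : K := ∏ i, y i ^ a i

section
variable {n : ℕ} {K : Type} [Field K] {y : Fin n → K}

lemma mon_ne_zero (hy : ∀ i, y i ≠ 0) (a : Fin n → ℤ) : mon y a ≠ 0 :=
  Finset.prod_ne_zero_iff.mpr fun i _ => zpow_ne_zero _ (hy i)

lemma mon_add (hy : ∀ i, y i ≠ 0) (a b : Fin n → ℤ) : mon y (a + b) = mon y a * mon y b := by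
  simp only [mon, Pi.add_apply]
  rw [← Finset.prod_mul_distrib]
  exact Finset.prod_congr rfl fun i _ => zpow_add₀ (hy i) _ _

lemma mon_zero : mon y 0 = 1 := by simp [mon]

lemma mon_smul (c : ℤ) (a : Fin n → ℤ) : mon y (c • a) = mon y a ^ c := by
  simp only [mon, Pi.smul_apply, smul_eq_mul]
  rw [← Finset.prod_zpow]
  exact Finset.prod_congr rfl fun i _ => by rw [mul_comm, zpow_mul]

lemma mon_sum (hy : ∀ i, y i ≠ 0) {ι : Type} (s : Finset ι) (f : ι → Fin n → ℤ) :
    mon y (∑ l ∈ s, f l) = ∏ l ∈ s, mon y (f l) := by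
  classical
  induction s using Finset.induction_on with
  | empty => simp [mon_zero]
  | insert a s ha ih => rw [Finset.sum_insert ha, Finset.prod_insert ha, mon_add hy, ih]

lemma mon_single (i : Fin n) : mon y (Pi.single i 1) = y i := by
  classical
  simp only [mon]
  rw [Finset.prod_eq_single i]
  · simp
  · intro j _ hj; simp [Pi.single_eq_of_ne hj]
  · simp
end

/-- A point of the torus with a lattice of multiplicative relations of rank `r` is a torsion
point times a monomial image of a point of an `n - r` dimensional torus. -/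
theorem exists_param {n : ℕ} {K : Type} [Field K] (y : Fin n → K) (hy : ∀ i, y i ≠ 0)
    (Λ : Submodule ℤ (Fin n → ℤ)) (hΛ : ∀ a ∈ Λ, mon y a = 1) :
    ∃ (h : ℕ) (b : Fin h → K) (ζ : Fin n → K) (A : Fin n → Fin h → ℤ),
      h + finrank ℤ Λ ≤ n ∧ (∀ l, b l ≠ 0) ∧ (∀ i, ∃ N : ℕ, 0 < N ∧ ζ i ^ N = 1) ∧
      ∀ i, y i = ζ i * mon b (A i) := by
  classical
  let Q := (Fin n → ℤ) ⧸ Λ
  let Q' := Q ⧸ Submodule.torsion ℤ Q
  have hfree : Module.Free ℤ Q' := Module.free_of_finite_type_torsion_free'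
  let h := finrank ℤ Q'
  let β : Basis (Fin h) ℤ Q' := Module.finBasis ℤ Q'
  let π : (Fin n → ℤ) →ₗ[ℤ] Q' := (Submodule.mkQ (Submodule.torsion ℤ Q)).comp (Submodule.mkQ Λ)
  have hπ : Function.Surjective π := by
    exact (Submodule.mkQ_surjective _).comp (Submodule.mkQ_surjective _)
  obtain ⟨s, hs⟩ := Module.projective_lifting_property π LinearMap.id hπ
  have hs' : ∀ q, π (s q) = q := fun q => by
    have := LinearMap.congr_fun hs q
    simpa using this
  let b : Fin h → K := fun l => mon y (s (β l))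
  let A : Fin n → Fin h → ℤ := fun i l => β.repr (π (Pi.single i 1)) l
  let lam : Fin n → (Fin n → ℤ) := fun i => Pi.single i 1 - s (π (Pi.single i 1))
  refine ⟨h, b, fun i => mon y (lam i), A, ?_, fun l => mon_ne_zero hy _, ?_, ?_⟩
  · have h1 : finrank ℤ Q' ≤ finrank ℤ Q := Submodule.finrank_quotient_le _
    have h2 : finrank ℤ Q + finrank ℤ Λ = finrank ℤ (Fin n → ℤ) :=
      Submodule.finrank_quotient_add_finrank Λ
    rw [finrank_fin_fun] at h2
    omega
  · intro i
    have h1 : π (lam i) = 0 := by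
      simp only [lam, map_sub, hs', sub_self]
    have h2 : Submodule.mkQ Λ (lam i) ∈ Submodule.torsion ℤ Q := by
      have : Submodule.mkQ (Submodule.torsion ℤ Q) (Submodule.mkQ Λ (lam i)) = 0 := h1
      rwa [Submodule.mkQ_apply, Submodule.Quotient.mk_eq_zero] at this
    rw [Submodule.mem_torsion_iff] at h2
    obtain ⟨c, hc⟩ := h2
    have hc0 : (c : ℤ) ≠ 0 := nonZeroDivisors.ne_zero c.2
    have h3 : (c : ℤ) • lam i ∈ Λ := by
      have h4 : Submodule.mkQ Λ ((c : ℤ) • lam i) = 0 := by
        rw [map_smul]; exact hc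
      rwa [Submodule.mkQ_apply, Submodule.Quotient.mk_eq_zero] at h4
    have h5 := hΛ _ h3
    rw [mon_smul] at h5
    refine ⟨(c : ℤ).natAbs, Int.natAbs_pos.mpr hc0, ?_⟩
    rcases Int.natAbs_eq (c : ℤ) with h6 | h6
    · rw [h6, zpow_natCast] at h5
      exact h5
    · rw [h6, zpow_neg, zpow_natCast, inv_eq_one] at h5
      exact h5
  · intro i
    have h1 : (Pi.single i 1 : Fin n → ℤ) = lam i + ∑ l, A i l • s (β l) := by
      have h2 : s (π (Pi.single i 1)) = ∑ l, A i l • s (β l) := by
        conv_lhs => rw [← β.sum_repr (π (Pi.single i 1))]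
        rw [map_sum]
        refine Finset.sum_congr rfl fun l _ => ?_
        rw [map_smul]
      rw [← h2]
      simp [lam]
    calc y i = mon y (Pi.single i 1) := (mon_single i).symm
      _ = mon y (lam i + ∑ l, A i l • s (β l)) := by rw [← h1]
      _ = mon y (lam i) * ∏ l, mon y (s (β l)) ^ A i l := by
          rw [mon_add hy, mon_sum hy]
          simp only [mon_smul]
      _ = mon y (lam i) * mon b (A i) := rfl

end CIT60
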