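import Mathlib

set_option autoImplicit false

namespace CIT60

open Set

/-- Specialisation of an algebraic dependence: if `r` is algebraic over `ℚ[S]` then, outside a
hypersurface `g = 0`, the specialisation of `r` is algebraic over `ℚ` adjoined the
specialisation of `S`. -/
lemma exists_specialize {R : Type} [CommRing R] [IsDomain R] [Algebra ℚ R] (S : Set R) (r : R)
    (hr : IsAlgebraic (Algebra.adjoin ℚ S) r) :
    ∃ g : R, g ≠ 0 ∧ ∀ (B : Type) [CommRing B] [Algebra ℚ B] (φ : R →ₐ[ℚ] B), φ g ≠ 0 →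
      IsAlgebraic (Algebra.adjoin ℚ (φ '' S)) (φ r) := by
  obtain ⟨p, hp0, hp⟩ := hr
  refine ⟨(p.leadingCoeff : R), ?_, ?_⟩
  · intro h
    exact hp0 (Polynomial.leadingCoeff_eq_zero.mp (Subtype.ext h))
  · intro B _ _ φ hφ
    let ψ : Algebra.adjoin ℚ S →ₐ[ℚ] Algebra.adjoin ℚ (φ '' S) :=
      (φ.comp (Algebra.adjoin ℚ S).val).codRestrict _ (fun x => by
        rw [← AlgHom.map_adjoin]
        exact ⟨x, x.2, rfl⟩)
    refine ⟨p.map (ψ : Algebra.adjoin ℚ S →+* Algebra.adjoin ℚ (φ '' S)), ?_, ?_⟩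
    · intro h
      have h1 : (p.map (ψ : Algebra.adjoin ℚ S →+* Algebra.adjoin ℚ (φ '' S))).coeff
          p.natDegree = 0 := by rw [h]; simp
      rw [Polynomial.coeff_map] at h1
      apply hφ
      have h2 := congrArg (Subtype.val) h1
      simpa [ψ] using h2
    · rw [Polynomial.aeval_def, Polynomial.eval₂_map]
      have h3 : φ (Polynomial.aeval r p) = 0 := by rw [hp, map_zero]
      rw [Polynomial.aeval_def] at h3
      have h4 : φ (Polynomial.eval₂ (algebraMap (Algebra.adjoin ℚ S) R) r p) =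
        Polynomial.eval₂ ((φ : R →+* B).comp (algebraMap (Algebra.adjoin ℚ S) R)) (φ r) p := by
        exact Polynomial.hom_eval₂ p _ (φ : R →+* B) r
      rw [h4] at h3
      exact h3

/-- An algebraic dependence over `ℂ[S]` involves only finitely many complex numbers. -/
lemma exists_finite_coeff {R : Type} [CommRing R] [IsDomain R] [Algebra ℂ R] [Algebra ℚ R]
    [IsScalarTower ℚ ℂ R] (S : Set R) (r : R) (hr : IsAlgebraic (Algebra.adjoin ℂ S) r) :
    ∃ C : Set ℂ, C.Finite ∧ IsAlgebraic (Algebra.adjoin ℚ (algebraMap ℂ R '' C ∪ S)) r := by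
  have key : ∀ x ∈ Algebra.adjoin ℂ S, ∃ C : Set ℂ, C.Finite ∧
      x ∈ Algebra.adjoin ℚ (algebraMap ℂ R '' C ∪ S) := by
    intro x hx
    induction hx using Algebra.adjoin_induction with
    | mem x hx => exact ⟨∅, finite_empty, Algebra.subset_adjoin (Or.inr hx)⟩
    | algebraMap c => exact ⟨{c}, finite_singleton c, Algebra.subset_adjoin (Or.inl ⟨c, rfl, rfl⟩)⟩
    | add x y _ _ hx hy =>
      obtain ⟨C, hC, hC'⟩ := hx
      obtain ⟨D, hD, hD'⟩ := hy
      exact ⟨C ∪ D, hC.union hD, add_mem
        (Algebra.adjoin_mono (union_subset_union_left _ (image_mono subset_union_left)) hC')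
        (Algebra.adjoin_mono (union_subset_union_left _ (image_mono subset_union_right)) hD')⟩
    | mul x y _ _ hx hy =>
      obtain ⟨C, hC, hC'⟩ := hx
      obtain ⟨D, hD, hD'⟩ := hy
      exact ⟨C ∪ D, hC.union hD, mul_mem
        (Algebra.adjoin_mono (union_subset_union_left _ (image_mono subset_union_left)) hC')
        (Algebra.adjoin_mono (union_subset_union_left _ (image_mono subset_union_right)) hD')⟩
  obtain ⟨p, hp0, hp⟩ := hr
  choose! C hC hC' using key
  let D : Set ℂ := ⋃ k ∈ p.support, C (p.coeff k : R)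
  have hD : D.Finite := p.support.finite_toSet.biUnion fun k _ => hC _ (p.coeff k).2
  refine ⟨D, hD, ?_⟩
  have hcoef : ∀ k, (p.coeff k : R) ∈ Algebra.adjoin ℚ (algebraMap ℂ R '' D ∪ S) := by
    intro k
    by_cases hk : k ∈ p.support
    · refine Algebra.adjoin_mono (union_subset_union_left _ (image_mono ?_))
        (hC' _ (p.coeff k).2)
      exact subset_biUnion_of_mem (u := fun k => C (p.coeff k : R)) hk
    · rw [Polynomial.notMem_support_iff.mp hk]
      simp
  let q : Polynomial (Algebra.adjoin ℚ (algebraMap ℂ R '' D ∪ S)) :=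
    ∑ k ∈ p.support, Polynomial.monomial k ⟨(p.coeff k : R), hcoef k⟩
  have hq : ∀ k, (q.coeff k : R) = p.coeff k := by
    intro k
    simp only [q, Polynomial.finsetSum_coeff, Polynomial.coeff_monomial]
    rw [Finset.sum_ite_eq' p.support k]
    split_ifs with h
    · rfl
    · rw [Polynomial.notMem_support_iff.mp h]; rfl
  refine ⟨q, ?_, ?_⟩
  · intro h
    apply hp0
    ext k
    have := hq k
    rw [h] at this
    simpa using this.symm
  · rw [Polynomial.aeval_def, Polynomial.eval₂_eq_sum_range' _ (Nat.lt_succ_iff.mpr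
      (le_max_left q.natDegree p.natDegree))]
    rw [Polynomial.aeval_def, Polynomial.eval₂_eq_sum_range' _ (Nat.lt_succ_iff.mpr
      (le_max_right q.natDegree p.natDegree))] at hp
    rw [← hp]
    refine Finset.sum_congr rfl fun k _ => ?_
    congr 1
    exact hq k

end CIT60
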