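import Mathlib
import Pool.Agent.Lib.MP_c95b3b_ag_h60.Alg

set_option autoImplicit false

namespace CIT60

open Set

/-- The algebraic matroid over the rationals. -/
abbrev mat (A : Type) [CommRing A] [IsDomain A] [Algebra ℚ A] [FaithfulSMul ℚ A] : Matroid A :=
  AlgebraicIndependent.matroid ℚ A

section
variable {A : Type} [CommRing A] [IsDomain A] [Algebra ℚ A] [FaithfulSMul ℚ A]

lemma mem_closure_iff {S : Set A} {a : A} :
    a ∈ (mat A).closure S ↔ IsAlgebraic (Algebra.adjoin ℚ S) a := by
  rw [AlgebraicIndependent.matroid_closure_eq]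
  exact Subalgebra.mem_algebraicClosure _ _

lemma subset_closure (S : Set A) : S ⊆ (mat A).closure S :=
  (mat A).subset_closure S (subset_univ _)

lemma closure_mul_mem {S : Set A} {a b : A} (ha : a ∈ (mat A).closure S)
    (hb : b ∈ (mat A).closure S) : a * b ∈ (mat A).closure S := by
  rw [AlgebraicIndependent.matroid_closure_eq] at *
  exact mul_mem ha hb

lemma closure_add_mem {S : Set A} {a b : A} (ha : a ∈ (mat A).closure S)
    (hb : b ∈ (mat A).closure S) : a + b ∈ (mat A).closure S := by
  rw [AlgebraicIndependent.matroid_closure_eq] at *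
  exact add_mem ha hb

lemma closure_algebraic_mem {S : Set A} {a : A} (ha : IsAlgebraic ℚ a) :
    a ∈ (mat A).closure S := by
  rw [mem_closure_iff]
  exact ha.extendScalars (algebraMap ℚ (Algebra.adjoin ℚ S)).injective

lemma closure_pow_mem {S : Set A} {a : A} (ha : a ∈ (mat A).closure S) (n : ℕ) :
    a ^ n ∈ (mat A).closure S := by
  rw [AlgebraicIndependent.matroid_closure_eq] at *
  exact pow_mem ha n

lemma closure_prod_mem {ι : Type} {S : Set A} (T : Finset ι) (f : ι → A)
    (hf : ∀ i ∈ T, f i ∈ (mat A).closure S) : ∏ i ∈ T, f i ∈ (mat A).closure S := by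
  rw [AlgebraicIndependent.matroid_closure_eq] at *
  exact prod_mem hf

lemma closure_closure_subset {S T : Set A} (h : S ⊆ (mat A).closure T) :
    (mat A).closure S ⊆ (mat A).closure T := by
  have := (mat A).closure_subset_closure h
  rwa [Matroid.closure_closure] at this

end

lemma closure_inv_mem {A : Type} [Field A] [Algebra ℚ A] {S : Set A} {a : A}
    (ha : a ∈ (mat A).closure S) : a⁻¹ ∈ (mat A).closure S := by
  rw [mem_closure_iff] at *
  exact IsAlgebraic.inv ha

lemma closure_zpow_mem {A : Type} [Field A] [Algebra ℚ A] {S : Set A} {a : A}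
    (ha : a ∈ (mat A).closure S) (n : ℤ) : a ^ n ∈ (mat A).closure S := by
  cases n with
  | ofNat n => rw [Int.ofNat_eq_natCast, zpow_natCast]; exact closure_pow_mem ha n
  | negSucc n =>
    rw [zpow_negSucc]
    exact closure_inv_mem (closure_pow_mem ha _)

/-- The main counting lemma. -/
theorem key {R : Type} [CommRing R] [IsDomain R] [Algebra ℂ R] [Algebra ℚ R] [FaithfulSMul ℚ R]
    [FaithfulSMul ℂ R] [IsScalarTower ℚ ℂ R] {n : ℕ} (x : Fin n → R) (d : ℕ)
    (hd : ∀ I : Finset (Fin n), AlgebraicIndependent ℂ (fun i : I => x i) → I.card ≤ d) :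
    ∃ g : R, g ≠ 0 ∧ ∀ φ : R →ₐ[ℂ] ℂ, φ g ≠ 0 → ∀ (h : ℕ) (b : Fin h → ℂ),
      (∀ i, φ (x i) ∈ (mat ℂ).closure (range b)) →
        (mat R).eRk (range x) ≤ h + d ∧
        ((h : ℕ∞) + d ≤ (mat R).eRk (range x) → AlgebraicIndependent ℚ b) := by
  classical
  -- a maximal family independent over ℂ
  obtain ⟨I, hI, hImax⟩ : ∃ I : Finset (Fin n), AlgebraicIndependent ℂ (fun i : I => x i) ∧
      ∀ i, IsAlgebraic (Algebra.adjoin ℂ (x '' (I : Set (Fin n)))) (x i) := by
    let P := (Finset.univ : Finset (Finset (Fin n))).filter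
      (fun I : Finset (Fin n) => AlgebraicIndependent ℂ (fun i : I => x i))
    have hP : P.Nonempty := by
      refine ⟨∅, ?_⟩
      simp only [P, Finset.mem_filter, Finset.mem_univ, true_and]
      have : IsEmpty ((∅ : Finset (Fin n)) : Type) := by
        constructor; rintro ⟨a, ha⟩; simp at ha
      rw [algebraicIndependent_empty_type_iff]
      exact FaithfulSMul.algebraMap_injective ℂ R
    obtain ⟨I, hIP, hImax⟩ := Finset.exists_max_image P Finset.card hP
    simp only [P, Finset.mem_filter, Finset.mem_univ, true_and] at hIP hImax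
    refine ⟨I, hIP, fun i => ?_⟩
    by_cases hi : i ∈ I
    · have : x i ∈ Algebra.adjoin ℂ (x '' (I : Set (Fin n))) :=
        Algebra.subset_adjoin ⟨i, hi, rfl⟩
      exact isAlgebraic_algebraMap (⟨x i, this⟩ : Algebra.adjoin ℂ (x '' (I : Set (Fin n))))
    · by_contra hcon
      have h1 : AlgebraicIndepOn ℂ x (insert i (I : Set (Fin n))) :=
        AlgebraicIndepOn.insert (s := (I : Set (Fin n))) hIP hcon
      have h2 : AlgebraicIndependent ℂ (fun j : (insert i I : Finset (Fin n)) => x j) := by
        rw [← Finset.coe_insert] at h1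
        exact h1
      have h3 := hImax _ h2
      rw [Finset.card_insert_of_notMem hi] at h3
      omega
  have hId : I.card ≤ d := hd I hI
  -- finitely many coefficients
  have hCi : ∀ i, ∃ C : Set ℂ, C.Finite ∧
      IsAlgebraic (Algebra.adjoin ℚ (algebraMap ℂ R '' C ∪ x '' (I : Set (Fin n)))) (x i) :=
    fun i => exists_finite_coeff _ _ (hImax i)
  choose Ci hCif hCi using hCi
  let C : Set ℂ := ⋃ i, Ci i
  have hCfin : C.Finite := finite_iUnion hCif
  -- a transcendence basis of the coefficients
  obtain ⟨C1, hC1⟩ := (mat ℂ).exists_isBasis C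
  have hC1C : C1 ⊆ C := hC1.subset
  have hC1fin : C1.Finite := hCfin.subset hC1C
  have hinj : Function.Injective (algebraMap ℂ R) := FaithfulSMul.algebraMap_injective ℂ R
  -- in `R`
  let CR : Set R := algebraMap ℂ R '' C1
  have hCR : ∀ c ∈ C, algebraMap ℂ R c ∈ (mat R).closure CR := by
    intro c hc
    have h1 : c ∈ (mat ℂ).closure C1 := hC1.subset_closure hc
    rw [mem_closure_iff] at h1
    obtain ⟨g, hg0, hg⟩ := exists_specialize C1 c h1
    have h2 := hg R (IsScalarTower.toAlgHom ℚ ℂ R) (by
      intro h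
      apply hg0
      apply hinj
      rw [map_zero]
      exact h)
    rw [mem_closure_iff]
    exact h2
  have hX : ∀ i, x i ∈ (mat R).closure (CR ∪ x '' (I : Set (Fin n))) := by
    intro i
    have h1 : x i ∈ (mat R).closure (algebraMap ℂ R '' (Ci i) ∪ x '' (I : Set (Fin n))) := by
      rw [mem_closure_iff]; exact hCi i
    refine closure_closure_subset ?_ h1
    rintro _ (⟨c, hc, rfl⟩ | h)
    · exact (mat R).closure_subset_closure subset_union_left
        (hCR c (mem_iUnion.mpr ⟨i, hc⟩))
    · exact subset_closure _ (Or.inr h)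
  -- bases
  obtain ⟨E1, hE1⟩ := (mat R).exists_isBasis (range x)
  obtain ⟨B2, hB2, hE1B2⟩ := hE1.indep.subset_isBasis_of_subset
    (show E1 ⊆ range x ∪ CR from hE1.subset.trans subset_union_left)
  let C' : Set R := B2 \ range x
  have hC'sub : C' ⊆ CR := by
    rintro c ⟨hc, hc'⟩
    rcases hB2.subset hc with h | h
    · exact absurd h hc'
    · exact h
  have hB2card : (mat R).eRk (range x) + C'.encard ≤ C1.encard + d := by
    have h1 : B2.encard = (B2 ∩ range x).encard + C'.encard := by
      rw [← encard_sdiff_add_encard_inter B2 (range x), add_comm]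
    have h2 : (mat R).eRk (range x) ≤ (B2 ∩ range x).encard := by
      rw [← hE1.encard_eq_eRk]
      exact encard_le_encard (subset_inter hE1B2 hE1.subset)
    have h3 : B2.encard ≤ C1.encard + d := by
      rw [hB2.encard_eq_eRk]
      calc (mat R).eRk (range x ∪ CR) ≤ (mat R).eRk ((mat R).closure (CR ∪ x '' (I : Set (Fin n)))) := by
            apply (mat R).eRk_mono
            rintro _ (⟨i, rfl⟩ | h)
            · exact hX i
            · exact subset_closure _ (Or.inl h)
        _ = (mat R).eRk (CR ∪ x '' (I : Set (Fin n))) := Matroid.eRk_closure_eq _ _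
        _ ≤ (CR ∪ x '' (I : Set (Fin n))).encard := Matroid.eRk_le_encard _ _
        _ ≤ CR.encard + (x '' (I : Set (Fin n))).encard := encard_union_le _ _
        _ ≤ C1.encard + d := by
            gcongr
            · exact encard_image_le _ _
            · refine (encard_image_le _ _).trans ?_
              rw [encard_coe_eq_coe_finsetCard]
              exact_mod_cast hId
    calc (mat R).eRk (range x) + C'.encard ≤ (B2 ∩ range x).encard + C'.encard := by gcongr
      _ = B2.encard := h1.symm
      _ ≤ _ := h3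
  -- the exceptional set
  have hspec : ∀ c ∈ C1, ∃ g : R, g ≠ 0 ∧ ∀ φ : R →ₐ[ℂ] ℂ, φ g ≠ 0 →
      c ∈ (mat ℂ).closure (φ '' (range x ∪ C')) := by
    intro c hc
    have h1 : algebraMap ℂ R c ∈ (mat R).closure (range x ∪ C') := by
      have h2 : algebraMap ℂ R c ∈ (mat R).closure B2 :=
        hB2.subset_closure (Or.inr ⟨c, hc, rfl⟩)
      refine (mat R).closure_subset_closure ?_ h2
      intro z hz
      by_cases hzx : z ∈ range x
      · exact Or.inl hzx
      · exact Or.inr ⟨hz, hzx⟩
    rw [mem_closure_iff] at h1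
    obtain ⟨g, hg0, hg⟩ := exists_specialize _ _ h1
    refine ⟨g, hg0, fun φ hφ => ?_⟩
    have h3 := hg ℂ (φ.restrictScalars ℚ) hφ
    rw [mem_closure_iff]
    have h4 : (φ.restrictScalars ℚ) (algebraMap ℂ R c) = c := by
      simp
    rw [h4] at h3
    exact h3
  choose! g hg0 hg using hspec
  refine ⟨∏ c ∈ hC1fin.toFinset, g c, ?_, ?_⟩
  · exact Finset.prod_ne_zero_iff.mpr fun c hc => hg0 c (hC1fin.mem_toFinset.mp hc)
  intro φ hφ h b hb
  rw [map_prod] at hφ
  have hφ' : ∀ c ∈ C1, φ (g c) ≠ 0 := fun c hc =>
    (Finset.prod_ne_zero_iff.mp hφ) c (hC1fin.mem_toFinset.mpr hc)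
  let C'' : Set ℂ := φ '' C'
  have hC''1 : C'' ⊆ C1 := by
    rintro _ ⟨c, hc, rfl⟩
    obtain ⟨c1, hc1, rfl⟩ := hC'sub hc
    simpa using hc1
  have hC''fin : C''.Finite := hC1fin.subset hC''1
  have hC'fin : C'.Finite := (hC1fin.image _).subset hC'sub
  have hC''card : C''.encard ≤ C'.encard := encard_image_le _ _
  have hsub : C1 ⊆ (mat ℂ).closure (range b ∪ C'') := by
    intro c hc
    have h1 := hg c hc φ (hφ' c hc)
    refine closure_closure_subset ?_ h1
    rintro _ ⟨z, (⟨i, rfl⟩ | hz), rfl⟩
    · exact (mat ℂ).closure_subset_closure subset_union_left (hb i)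
    · exact subset_closure _ (Or.inr ⟨z, hz, rfl⟩)
  have hC1rk : C1.encard ≤ (mat ℂ).eRk (range b ∪ C'') := by
    rw [← Matroid.eRk_closure_eq]
    exact hC1.indep.encard_le_eRk_of_subset hsub
  have hrange : (range b).encard ≤ h := by
    rw [← image_univ]
    refine (encard_image_le _ _).trans ?_
    simp
  have hun : (range b ∪ C'').encard ≤ (range b).encard + C''.encard := encard_union_le _ _
  have hrk : (mat ℂ).eRk (range b ∪ C'') ≤ (range b ∪ C'').encard := Matroid.eRk_le_encard _ _
  have hC'top : C'.encard ≠ ⊤ := by rw [encard_ne_top_iff]; exact hC'fin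
  have hfin : (range b ∪ C'').Finite := (finite_range b).union hC''fin
  constructor
  · have h1 : (mat R).eRk (range x) + C'.encard ≤ (h + d) + C'.encard := by
      calc (mat R).eRk (range x) + C'.encard ≤ C1.encard + d := hB2card
        _ ≤ ((range b).encard + C''.encard) + d := by gcongr; exact hC1rk.trans (hrk.trans hun)
        _ ≤ (h + C'.encard) + d := by gcongr
        _ = (h + d) + C'.encard := by ring
    exact (ENat.add_le_add_iff_right hC'top).mp h1
  · intro hge
    -- all inequalities are equalities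
    have h1 : (h : ℕ∞) + C'.encard ≤ (mat ℂ).eRk (range b ∪ C'') := by
      have h2 : ((h : ℕ∞) + C'.encard) + d ≤ (mat ℂ).eRk (range b ∪ C'') + d := by
        calc ((h : ℕ∞) + C'.encard) + d = (h + d) + C'.encard := by ring
          _ ≤ (mat R).eRk (range x) + C'.encard := by gcongr
          _ ≤ C1.encard + d := hB2card
          _ ≤ _ := by gcongr
      exact (ENat.add_le_add_iff_right (ENat.natCast_ne_top d)).mp h2
    have h3 : (range b ∪ C'').encard ≤ (mat ℂ).eRk (range b ∪ C'') := by
      refine le_trans ?_ h1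
      exact hun.trans (by gcongr)
    have hind : (mat ℂ).Indep (range b ∪ C'') := by
      rw [Matroid.indep_iff_eRk_eq_encard_of_finite hfin]
      exact le_antisymm hrk h3
    have hindb : (mat ℂ).Indep (range b) := hind.subset subset_union_left
    have hb1 : (h : ℕ∞) ≤ (range b).encard := by
      have h4 : (h : ℕ∞) + C'.encard ≤ (range b).encard + C'.encard :=
        h1.trans (hrk.trans (hun.trans (by gcongr)))
      exact (ENat.add_le_add_iff_right hC'top).mp h4
    have hbinj : Function.Injective b := by
      have h5 : h ≤ (Finset.univ.image b).card := by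
        have h6 : (range b).encard = ((Finset.univ.image b).card : ℕ∞) := by
          rw [← encard_coe_eq_coe_finsetCard, Finset.coe_image, Finset.coe_univ, image_univ]
        rw [h6] at hb1
        exact_mod_cast hb1
      have h7 : (Finset.univ.image b).card = (Finset.univ : Finset (Fin h)).card := by
        refine le_antisymm Finset.card_image_le ?_
        simpa using h5
      have h8 := Finset.card_image_iff.mp h7
      intro i j hij
      exact h8 (by simp) (by simp) hij
    exact (algebraicIndependent_subtype_range hbinj).mp hindb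

end CIT60
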