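import Mathlib

set_option autoImplicit false

namespace CIT60

open Finset Polynomial

/-- Galois conjugation for rational relations between powers of a primitive root of unity. -/
lemma conj_pow {ι : Type*} (S : Finset ι) (f : ι → ℚ) (k : ι → ℕ) {N t : ℕ} {ζ : ℂ}
    (hN : 0 < N) (hζ : IsPrimitiveRoot ζ N) (ht : t.Coprime N)
    (h : ∑ a ∈ S, (f a : ℂ) * ζ ^ (k a) = 0) :
    ∑ a ∈ S, (f a : ℂ) * ζ ^ (t * k a) = 0 := by
  have h1 : aeval ζ (∑ a ∈ S, C (f a) * X ^ (k a) : ℚ[X]) = 0 := by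
    simpa [map_sum] using h
  have h2 : minpoly ℚ ζ ∣ (∑ a ∈ S, C (f a) * X ^ (k a) : ℚ[X]) := minpoly.dvd _ _ h1
  have h3 : minpoly ℚ ζ = minpoly ℚ (ζ ^ t) := by
    rw [← cyclotomic_eq_minpoly_rat hζ hN, ← cyclotomic_eq_minpoly_rat (hζ.pow_of_coprime t ht) hN]
  rw [h3] at h2
  have h4 : aeval (ζ ^ t) (∑ a ∈ S, C (f a) * X ^ (k a) : ℚ[X]) = 0 :=
    aeval_eq_zero_of_dvd_aeval_eq_zero h2 (minpoly.aeval _ _)
  simpa [map_sum, ← pow_mul] using h4

lemma sum_pow_root {p : ℕ} (hp : p.Prime) {ω : ℂ} (hω : IsPrimitiveRoot ω p) (m : ℕ) :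
    ∑ j ∈ range p, (ω ^ m) ^ j = if p ∣ m then (p : ℂ) else 0 := by
  split_ifs with h
  · have : ω ^ m = 1 := (hω.pow_eq_one_iff_dvd m).mpr h
    simp [this]
  · have h1 : IsPrimitiveRoot (ω ^ m) p :=
      hω.pow_of_coprime m ((Nat.Prime.coprime_iff_not_dvd hp).mpr h).symm
    exact h1.geom_sum_eq_zero hp.one_lt

/-- The key step in Mann's theorem. -/
lemma mann_key {ι : Type*} [DecidableEq ι] (S : Finset ι) (f : ι → ℚ) (k : ι → ℕ)
    {N p : ℕ} (hp : p.Prime) (hpN : p ∣ N) (hN : 0 < N) {ζ : ℂ} (hζ : IsPrimitiveRoot ζ N)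
    (h : ∑ a ∈ S, (f a : ℂ) * ζ ^ (k a) = 0) (hc : p ^ 2 ∣ N ∨ S.card < p) :
    ∑ a ∈ S with p ∣ k a, (f a : ℂ) * ζ ^ (k a) = 0 := by
  obtain ⟨N', rfl⟩ := hpN
  have hN' : 0 < N' := Nat.pos_of_mul_pos_left hN |> fun h => by
    rcases Nat.eq_zero_or_pos N' with h0 | h0
    · subst h0; simp at hN
    · exact h0
  have hω : IsPrimitiveRoot (ζ ^ N') p := by
    have := hζ.pow hN (show p * N' = N' * p by ring)
    exact this
  set ω := ζ ^ N' with hωdef
  clear_value ω
  -- the Fourier coefficients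
  let V : ℕ → ℂ := fun j => ∑ a ∈ S, (f a : ℂ) * ζ ^ (k a) * (ω ^ (k a)) ^ j
  have hV : ∀ j, ¬ p ∣ 1 + j * N' → V j = 0 := by
    intro j hj
    have hcop : (1 + j * N').Coprime (p * N') := by
      apply Nat.Coprime.mul_right
      · exact ((Nat.Prime.coprime_iff_not_dvd hp).mpr hj).symm
      · simp
    have := conj_pow S f k hN hζ hcop h
    simp only [V]
    rw [← this]
    refine sum_congr rfl fun a _ => ?_
    rw [hωdef, ← pow_mul, ← pow_mul, mul_assoc, ← pow_add]
    congr 2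
    ring
  have hT : ∀ s, s ≤ p → ∑ j ∈ range p, ω ^ (j * (p - s)) * V j =
      p * ∑ a ∈ S with p ∣ k a + (p - s), (f a : ℂ) * ζ ^ (k a) := by
    intro s _
    simp only [V, mul_sum]
    rw [sum_comm, sum_filter]
    refine sum_congr rfl fun a _ => ?_
    have h1 := sum_pow_root hp hω (k a + (p - s))
    have h2 : ∑ j ∈ range p, ω ^ (j * (p - s)) * ((f a : ℂ) * ζ ^ (k a) * (ω ^ (k a)) ^ j) =
        (f a : ℂ) * ζ ^ (k a) * ∑ j ∈ range p, (ω ^ (k a + (p - s))) ^ j := by
      rw [mul_sum]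
      refine sum_congr rfl fun j _ => ?_
      have e : (ω ^ (k a + (p - s))) ^ j = ω ^ (j * (p - s)) * (ω ^ (k a)) ^ j := by
        rw [← pow_mul, ← pow_mul, ← pow_add]
        congr 1
        ring
      rw [e]
      ring
    rw [h2, h1]
    split_ifs <;> ring
  have hall : ∀ j ∈ range p, V j = 0 := by
    intro j1 hj1
    by_contra hne
    have hd : p ∣ 1 + j1 * N' := by
      by_contra h0
      exact hne (hV j1 h0)
    have hpN' : ¬ p ∣ N' := by
      intro h0
      have : p ∣ 1 := (Nat.dvd_add_left (h0.mul_left j1)).mp hd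
      exact hp.one_lt.ne' (Nat.dvd_one.mp this)
    rcases hc with hc | hc
    · apply hpN'
      rw [pow_two] at hc
      exact Nat.dvd_of_mul_dvd_mul_left hp.pos hc
    · have huniq : ∀ j ∈ range p, j ≠ j1 → V j = 0 := by
        intro j hj hjj
        apply hV
        intro hd2
        have h3 : (p : ℤ) ∣ ((j : ℤ) - j1) * N' := by
          have e1 : (p : ℤ) ∣ ((1 + j * N' : ℕ) : ℤ) := by exact_mod_cast hd2
          have e2 : (p : ℤ) ∣ ((1 + j1 * N' : ℕ) : ℤ) := by exact_mod_cast hd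
          have e3 : ((1 + j * N' : ℕ) : ℤ) - ((1 + j1 * N' : ℕ) : ℤ) = ((j : ℤ) - j1) * N' := by
            push_cast
            ring
          rw [← e3]
          exact dvd_sub e1 e2
        have hpI : Prime (p : ℤ) := Nat.prime_iff_prime_int.mp hp
        rcases hpI.dvd_or_dvd h3 with h4 | h4
        · rw [mem_range] at hj hj1
          obtain ⟨c, hc'⟩ := h4
          have : c = 0 := by
            by_contra hc0
            rcases lt_or_gt_of_ne hc0 with h5 | h5
            · have : (p : ℤ) * c ≤ p * (-1) := by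
                apply mul_le_mul_of_nonneg_left (by omega) (by positivity)
              omega
            · have : (p : ℤ) * 1 ≤ p * c := by
                apply mul_le_mul_of_nonneg_left (by omega) (by positivity)
              omega
          subst this
          apply hjj
          omega
        · exact hpN' (by exact_mod_cast h4)
      -- a missing class
      obtain ⟨s, hs, hsmiss⟩ : ∃ s ∈ range p, ∀ a ∈ S, k a % p ≠ s := by
        by_contra hcon
        push Not at hcon
        have h5 : range p ⊆ S.image (fun a => k a % p) := by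
          intro s hs
          obtain ⟨a, ha, hka⟩ := hcon s hs
          exact mem_image.mpr ⟨a, ha, hka⟩
        have h6 := card_le_card h5
        rw [card_range] at h6
        exact absurd (h6.trans card_image_le) (by omega)
      rw [mem_range] at hs
      have h7 := hT s hs.le
      have h8 : S.filter (fun a => p ∣ k a + (p - s)) = ∅ := by
        rw [filter_eq_empty_iff]
        intro a ha hda
        apply hsmiss a ha
        have h9 : (k a + (p - s)) % p = 0 := Nat.mod_eq_zero_of_dvd hda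
        have h10 : (k a + (p - s) + s) % p = s % p := by
          rw [Nat.add_mod, h9]; simp
        rw [show k a + (p - s) + s = k a + p by omega, Nat.add_mod_right] at h10
        rw [h10, Nat.mod_eq_of_lt hs]
      rw [h8, sum_empty, mul_zero, sum_eq_single_of_mem j1 hj1
        (fun j hj hjj => by rw [huniq j hj hjj, mul_zero])] at h7
      rcases mul_eq_zero.mp h7 with h9 | h9
      · have hω0 : ω ≠ 0 := hω.ne_zero hp.ne_zero
        exact pow_ne_zero _ hω0 h9
      · exact hne h9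
  have h0 := hT p le_rfl
  simp only [tsub_self, mul_zero, pow_zero, one_mul, add_zero] at h0
  rw [sum_eq_zero hall] at h0
  have hp0 : (p : ℂ) ≠ 0 := by exact_mod_cast hp.ne_zero
  exact (mul_eq_zero.mp h0.symm).resolve_left hp0

/-- A weak form of Mann's theorem: in a vanishing sum of nonzero rational multiples of at most
`K` roots of unity two of the roots of unity have the same `K!`-th power. -/
theorem mann {ι : Type*} [DecidableEq ι] (S : Finset ι) (hS : S.Nonempty) (f : ι → ℚ)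
    (hf : ∀ a ∈ S, f a ≠ 0) (η : ι → ℂ) (hη : ∀ a ∈ S, ∃ m : ℕ, 0 < m ∧ η a ^ m = 1)
    (hsum : ∑ a ∈ S, (f a : ℂ) * η a = 0) (K : ℕ) (hK : S.card ≤ K) :
    ∃ a ∈ S, ∃ b ∈ S, a ≠ b ∧ η a ^ K.factorial = η b ^ K.factorial := by
  -- a minimal vanishing subsum
  let P := S.powerset.filter (fun T => T.Nonempty ∧ ∑ a ∈ T, (f a : ℂ) * η a = 0)
  have hP : P.Nonempty := ⟨S, by simp [P, hS, hsum]⟩
  obtain ⟨T, hTP, hTmin⟩ := exists_min_image P card hP
  simp only [P, mem_filter, mem_powerset] at hTP hTmin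
  obtain ⟨hTS, hTne, hTsum⟩ := hTP
  have hmin : ∀ U ⊆ T, U.Nonempty → ∑ a ∈ U, (f a : ℂ) * η a = 0 → U = T := by
    intro U hU hUne hUsum
    exact eq_of_subset_of_card_le hU (hTmin U ⟨hU.trans hTS, hUne, hUsum⟩)
  have hη0 : ∀ a ∈ S, η a ≠ 0 := by
    intro a ha h0
    obtain ⟨m, hm, hm'⟩ := hη a ha
    rw [h0, zero_pow hm.ne'] at hm'
    exact zero_ne_one hm'
  obtain ⟨a0, ha0⟩ := hTne
  obtain ⟨a1, ha1, hne⟩ : ∃ a1 ∈ T, a1 ≠ a0 := by
    by_contra hcon
    push Not at hcon
    have : T = {a0} := by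
      ext x
      simp only [mem_singleton]
      exact ⟨fun hx => hcon x hx, fun hx => hx ▸ ha0⟩
    rw [this, sum_singleton] at hTsum
    rcases mul_eq_zero.mp hTsum with h | h
    · exact hf a0 (hTS ha0) (by exact_mod_cast h)
    · exact hη0 a0 (hTS ha0) h
  -- the common order of the quotients
  let Q : ℕ → Prop := fun N => 0 < N ∧ ∀ a ∈ T, (η a / η a0) ^ N = 1
  have hQ : ∃ N, Q N := by
    choose! m hm hm' using hη
    refine ⟨∏ a ∈ S, m a, prod_pos fun a ha => hm a ha, ?_⟩
    intro a ha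
    have h1 : ∀ a ∈ S, η a ^ (∏ a ∈ S, m a) = 1 := by
      intro a ha
      obtain ⟨c, hc⟩ := dvd_prod_of_mem m ha
      rw [hc, pow_mul, hm' a ha, one_pow]
    rw [div_pow, h1 a (hTS ha), h1 a0 (hTS ha0), div_one]
  classical
  let N := Nat.find hQ
  obtain ⟨hNpos, hNpow⟩ : Q N := Nat.find_spec hQ
  have hNmin : ∀ N', N' < N → ¬ Q N' := fun N' h => Nat.find_min hQ h
  have hζ : IsPrimitiveRoot (Complex.exp (2 * Real.pi * Complex.I / N)) N :=
    Complex.isPrimitiveRoot_exp N hNpos.ne'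
  set ζ := Complex.exp (2 * Real.pi * Complex.I / N) with hζdef
  have hk : ∀ a ∈ T, ∃ k : ℕ, k < N ∧ ζ ^ k = η a / η a0 := by
    intro a ha
    have : NeZero N := ⟨hNpos.ne'⟩
    obtain ⟨k, hk, hk'⟩ := hζ.eq_pow_of_pow_eq_one (hNpow a ha)
    exact ⟨k, hk, hk'⟩
  choose! k hkN hkη using hk
  have hsumk : ∑ a ∈ T, (f a : ℂ) * ζ ^ (k a) = 0 := by
    have : ∑ a ∈ T, (f a : ℂ) * ζ ^ (k a) = (∑ a ∈ T, (f a : ℂ) * η a) / η a0 := by
      rw [sum_div]
      refine sum_congr rfl fun a ha => ?_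
      rw [hkη a ha, mul_div_assoc]
    rw [this, hTsum, zero_div]
  have hk0 : k a0 = 0 := by
    have h1 := hkη a0 ha0
    rw [div_self (hη0 a0 (hTS ha0))] at h1
    have h2 := (hζ.pow_eq_one_iff_dvd _).mp h1
    exact Nat.eq_zero_of_dvd_of_lt h2 (hkN a0 ha0)
  have hprime : ∀ p, p.Prime → p ∣ N → ¬ (p ^ 2 ∣ N ∨ T.card < p) := by
    intro p hp hpN hc
    have h1 := mann_key T f k hp hpN hNpos hζ hsumk hc
    have h2 : T.filter (fun a => p ∣ k a) = T := by
      apply hmin _ (filter_subset _ _) ⟨a0, by simp [ha0, hk0]⟩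
      have h3 : ∑ a ∈ T with p ∣ k a, (f a : ℂ) * η a =
          η a0 * ∑ a ∈ T with p ∣ k a, (f a : ℂ) * ζ ^ (k a) := by
        rw [mul_sum]
        refine sum_congr rfl fun a ha => ?_
        rw [hkη a (mem_filter.mp ha).1]
        field_simp [hη0 a0 (hTS ha0)]
      rw [h3, h1, mul_zero]
    obtain ⟨N', hN'⟩ := hpN
    have hN'pos : 0 < N' := by
      rcases Nat.eq_zero_or_pos N' with h0 | h0
      · rw [h0, mul_zero] at hN'; omega
      · exact h0
    have hlt : N' < N := by
      rw [hN']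
      exact lt_mul_of_one_lt_left hN'pos hp.one_lt
    apply hNmin N' hlt
    refine ⟨hN'pos, fun a ha => ?_⟩
    have h4 : p ∣ k a := by
      rw [← h2] at ha
      exact (mem_filter.mp ha).2
    obtain ⟨c, hc⟩ := h4
    rw [← hkη a ha, ← pow_mul, hc, show p * c * N' = (p * N') * c by ring, ← hN', pow_mul,
      hζ.pow_eq_one, one_pow]
  have hsq : Squarefree N := by
    rw [Nat.squarefree_iff_prime_squarefree]
    intro p hp hd
    exact hprime p hp (dvd_trans (dvd_mul_right p p) hd) (Or.inl (by rwa [pow_two]))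
  have hdvd : N ∣ K.factorial := by
    rw [← Nat.prod_primeFactors_of_squarefree hsq]
    apply Finset.prod_primes_dvd
    · intro p hp
      exact (Nat.prime_of_mem_primeFactors hp).prime
    · intro p hp
      have hp1 := Nat.prime_of_mem_primeFactors hp
      have h5 := hprime p hp1 (Nat.dvd_of_mem_primeFactors hp)
      push Not at h5
      apply Nat.dvd_factorial hp1.pos
      exact (h5.2.trans (card_le_card hTS)).trans hK
  refine ⟨a1, hTS ha1, a0, hTS ha0, hne, ?_⟩
  obtain ⟨c, hc⟩ := hdvd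
  have h6 : (η a1 / η a0) ^ K.factorial = 1 := by
    rw [hc, pow_mul, hNpow a1 ha1, one_pow]
  rw [div_pow, div_eq_one_iff_eq (pow_ne_zero _ (hη0 a0 (hTS ha0)))] at h6
  exact h6

end CIT60
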