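import Mathlib
import Pool.Agent.Lib.MP_c95b3b_ag_h60.Torus
import Pool.Agent.Lib.MP_c95b3b_ag_h60.Mann

set_option autoImplicit false

namespace CIT60

open MvPolynomial

/-- Algebraically independent numbers satisfy no Laurent polynomial relation with algebraic
coefficients. -/
theorem group_sum {ι : Type} [DecidableEq ι] (T : Finset ι) {h : ℕ} (b : Fin h → ℂ)
    (hb : AlgebraicIndependent ℚ b) (hb0 : ∀ l, b l ≠ 0) (c : ι → ℂ)
    (hc : ∀ t ∈ T, IsAlgebraic ℚ (c t)) (u : ι → Fin h → ℤ)
    (hsum : ∑ t ∈ T, c t * mon b (u t) = 0) (v : Fin h → ℤ) :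
    ∑ t ∈ T with u t = v, c t = 0 := by
  classical
  have hb' := hb.algebraicClosure
  -- the shift
  let w : Fin h → ℤ := fun l => ∑ t ∈ T, |u t l|
  have hw : ∀ t ∈ T, ∀ l, 0 ≤ w l + u t l := by
    intro t ht l
    have h1 : |u t l| ≤ w l :=
      Finset.single_le_sum (f := fun t => |u t l|) (fun _ _ => abs_nonneg _) ht
    have h2 := neg_abs_le (u t l)
    omega
  let m : ι → (Fin h →₀ ℕ) := fun t => Finsupp.equivFunOnFinite.symm fun l => (w l + u t l).toNat
  let c' : ι → algebraicClosure ℚ ℂ := fun t =>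
    if ht : IsAlgebraic ℚ (c t) then ⟨c t, mem_algebraicClosure_iff.mpr ht⟩ else 0
  have hc' : ∀ t ∈ T, (c' t : ℂ) = c t := by
    intro t ht
    simp [c', hc t ht]
  let q : MvPolynomial (Fin h) (algebraicClosure ℚ ℂ) := ∑ t ∈ T, monomial (m t) (c' t)
  have hmon : ∀ t ∈ T, (m t).prod (fun l e => b l ^ e) = mon b w * mon b (u t) := by
    intro t ht
    rw [← mon_add hb0, Finsupp.prod_fintype _ _ (fun l => pow_zero _)]
    refine Finset.prod_congr rfl fun l _ => ?_
    simp only [m, Finsupp.equivFunOnFinite_symm_apply_apply, Pi.add_apply]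
    rw [← zpow_natCast, Int.toNat_of_nonneg (hw t ht l)]
  have hq0 : aeval b q = 0 := by
    simp only [q, map_sum, aeval_monomial]
    have : ∑ t ∈ T, (algebraMap (algebraicClosure ℚ ℂ) ℂ (c' t)) * (m t).prod (fun l e => b l ^ e) =
        mon b w * ∑ t ∈ T, c t * mon b (u t) := by
      rw [Finset.mul_sum]
      refine Finset.sum_congr rfl fun t ht => ?_
      rw [hmon t ht]
      have := hc' t ht
      change (c' t : ℂ) * _ = _
      rw [this]
      ring
    rw [this, hsum, mul_zero]
  have hq : q = 0 := by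
    have h1 := (algebraicIndependent_iff.mp hb') q hq0
    exact h1
  by_cases hex : ∃ t0 ∈ T, u t0 = v
  · obtain ⟨t0, ht0, hut0⟩ := hex
    have h1 : coeff (m t0) q = 0 := by rw [hq]; simp
    simp only [q, coeff_sum, coeff_monomial] at h1
    have h2 : ∀ t ∈ T, (m t = m t0 ↔ u t = v) := by
      intro t ht
      constructor
      · intro h3
        rw [← hut0]
        funext l
        have h4 := DFunLike.congr_fun h3 l
        simp only [m, Finsupp.equivFunOnFinite_symm_apply_apply] at h4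
        have h5 := hw t ht l
        have h6 := hw t0 ht0 l
        omega
      · intro h3
        simp only [m, h3, hut0]
    have h3 : ∑ t ∈ T with u t = v, c' t = 0 := by
      refine Eq.trans (Finset.sum_filter _ _) (Eq.trans (Finset.sum_congr rfl fun t ht => ?_) h1)
      simp only [h2 t ht]
    have h4 := congrArg (Subtype.val) h3
    rw [AddSubmonoidClass.coe_finsetSum] at h4
    rw [← Finset.sum_congr rfl (fun t ht => hc' t (Finset.mem_filter.mp ht).1)]
    exact h4
  · push Not at hex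
    rw [Finset.filter_false_of_mem hex, Finset.sum_empty]

/-- A rational polynomial relation between the coordinates of a point which is generic in a
torsion coset forces a multiplicative relation from a finite list. -/
theorem exists_rel {n h : ℕ} (f : MvPolynomial (Fin n) ℚ) (hf : f ≠ 0) (y : Fin n → ℂ)
    (hfy : aeval y f = 0) (b : Fin h → ℂ)
    (hb : AlgebraicIndependent ℚ b) (hb0 : ∀ l, b l ≠ 0) (ζ : Fin n → ℂ)
    (hζ : ∀ i, ∃ N : ℕ, 0 < N ∧ ζ i ^ N = 1) (A : Fin n → Fin h → ℤ)
    (hy : ∀ i, y i = ζ i * mon b (A i)) :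
    ∃ m ∈ f.support, ∃ m' ∈ f.support, m ≠ m' ∧
      mon y ((f.support.card.factorial : ℤ) • fun i => (m i : ℤ)) =
      mon y ((f.support.card.factorial : ℤ) • fun i => (m' i : ℤ)) := by
  classical
  let e : (Fin n →₀ ℕ) → Fin n → ℤ := fun m i => (m i : ℤ)
  have hζ0 : ∀ i, ζ i ≠ 0 := by
    intro i h0
    obtain ⟨N, hN, hN'⟩ := hζ i
    rw [h0, zero_pow hN.ne'] at hN'
    exact zero_ne_one hN'
  have hy0 : ∀ i, y i ≠ 0 := fun i => by
    rw [hy i]; exact mul_ne_zero (hζ0 i) (mon_ne_zero hb0 _)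
  let u : (Fin n →₀ ℕ) → Fin h → ℤ := fun m => ∑ i, (m i : ℤ) • A i
  have hmon : ∀ m, mon y (e m) = mon ζ (e m) * mon b (u m) := by
    intro m
    rw [mon_sum hb0]
    simp only [mon_smul]
    rw [mon, mon, ← Finset.prod_mul_distrib]
    refine Finset.prod_congr rfl fun i _ => ?_
    rw [hy i, mul_zpow]
  have hsum : ∑ m ∈ f.support, ((coeff m f : ℚ) : ℂ) * mon ζ (e m) * mon b (u m) = 0 := by
    rw [← hfy, aeval_def, eval₂_eq']
    refine Finset.sum_congr rfl fun m _ => ?_
    rw [mul_assoc, ← hmon]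
    simp only [mon, e, zpow_natCast]
    rfl
  have hsupp : f.support.Nonempty := support_nonempty.mpr hf
  obtain ⟨m0, hm0⟩ := hsupp
  have hη : ∀ m, ∃ N : ℕ, 0 < N ∧ mon ζ (e m) ^ N = 1 := by
    intro m
    choose N hN hN' using hζ
    refine ⟨∏ i, N i, Finset.prod_pos fun i _ => hN i, ?_⟩
    simp only [mon, e, zpow_natCast]
    rw [← Finset.prod_pow]
    refine Finset.prod_eq_one fun i _ => ?_
    obtain ⟨c, hc⟩ := Finset.dvd_prod_of_mem N (Finset.mem_univ i)
    rw [hc, ← pow_mul, show m i * (N i * c) = N i * (c * m i) by ring, pow_mul, hN', one_pow]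
  have halg : ∀ m ∈ f.support, IsAlgebraic ℚ (((coeff m f : ℚ) : ℂ) * mon ζ (e m)) := by
    intro m _
    refine IsAlgebraic.mul ?_ ?_
    · exact isAlgebraic_algebraMap (coeff m f : ℚ)
    · obtain ⟨N, hN, hN'⟩ := hη m
      refine IsAlgebraic.of_pow hN ?_
      rw [hN']
      exact isAlgebraic_one
  have hg := group_sum f.support b hb hb0 _ halg u (by simpa using hsum) (u m0)
  obtain ⟨m, hm, m', hm', hne, heq⟩ := mann (f.support.filter (fun t => u t = u m0))
    ⟨m0, by simp [hm0]⟩ (fun m => coeff m f)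
    (fun m hm => mem_support_iff.mp (Finset.mem_filter.mp hm).1) (fun m => mon ζ (e m))
    (fun m _ => hη m) hg f.support.card (Finset.card_filter_le _ _)
  rw [Finset.mem_filter] at hm hm'
  refine ⟨m, hm.1, m', hm'.1, hne, ?_⟩
  change mon y ((f.support.card.factorial : ℤ) • e m) = mon y ((f.support.card.factorial : ℤ) • e m')
  rw [mon_smul, mon_smul, hmon, hmon, mul_zpow, mul_zpow]
  simp only [zpow_natCast]
  rw [heq, hm.2, hm'.2]

end CIT60
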