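import Mathlib
import Pool.Agent.Lib.MP_c95b3b_ag_h60.Key
import Pool.Agent.Lib.MP_c95b3b_ag_h60.Lacun
import Pool.Agent.Lib.MP_c95b3b_ag_h85.Dim

set_option autoImplicit false

namespace CIT60.CodimOne

open MvPolynomial CIT60

/-- Zilber's conjecture for the irreducible subvarieties of the torus `G_m^n` over the complex
numbers, of any dimension, on which some `n - 1` of the `n` coordinate functions are algebraically
independent over the rational numbers. -/
theorem result (n : ℕ) (P : Ideal (MvPolynomial (Fin n) ℂ)) (hP : P.IsPrime)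
    (hX : (∏ i : Fin n, (MvPolynomial.X i : MvPolynomial (Fin n) ℂ)) ∉ P)
    (hgen : ∃ i₀ : Fin n, AlgebraicIndependent ℚ
      (fun i : {i : Fin n // i ≠ i₀} => Ideal.Quotient.mk P (MvPolynomial.X i.1)))
    (hU : ∀ f : MvPolynomial (Fin n) ℂ,
      (∀ x : Fin n → ℂ, (∀ i, x i ≠ 0) → (∀ g ∈ P, MvPolynomial.eval x g = 0) →
        (∃ Λ : Submodule ℤ (Fin n → ℤ),
          ringKrullDim (MvPolynomial (Fin n) ℂ ⧸ P)
              + ((n - Module.finrank ℤ Λ : ℕ) : WithBot ℕ∞) + 1 ≤ (n : WithBot ℕ∞) ∧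
          ∀ a ∈ Λ, ∏ i : Fin n, x i ^ a i = 1) →
        MvPolynomial.eval x f = 0) →
      ∀ x : Fin n → ℂ, (∀ i, x i ≠ 0) → (∀ g ∈ P, MvPolynomial.eval x g = 0) →
        MvPolynomial.eval x f = 0) :
    ∃ a : Fin n → ℤ, a ≠ 0 ∧
      ∀ x : Fin n → ℂ, (∀ i, x i ≠ 0) → (∀ g ∈ P, MvPolynomial.eval x g = 0) →
        ∏ i : Fin n, x i ^ a i = 1 := by
  classical
  let R := MvPolynomial (Fin n) ℂ ⧸ P
  have : IsDomain R := Ideal.Quotient.isDomain P
  have : FaithfulSMul ℚ R :=
    (faithfulSMul_iff_algebraMap_injective ℚ R).mpr (algebraMap ℚ R).injective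
  have : FaithfulSMul ℂ R :=
    (faithfulSMul_iff_algebraMap_injective ℂ R).mpr (algebraMap ℂ R).injective
  let xb : Fin n → R := fun i => Ideal.Quotient.mk P (X i)
  -- the dimension
  obtain ⟨I, hI, hImax⟩ : ∃ I : Finset (Fin n), AlgebraicIndependent ℂ (fun i : I => xb i) ∧
      ∀ J : Finset (Fin n), AlgebraicIndependent ℂ (fun i : J => xb i) → J.card ≤ I.card := by
    let S := (Finset.univ : Finset (Finset (Fin n))).filter
      (fun I : Finset (Fin n) => AlgebraicIndependent ℂ (fun i : I => xb i))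
    have hS : S.Nonempty := by
      refine ⟨∅, ?_⟩
      simp only [S, Finset.mem_filter, Finset.mem_univ, true_and]
      have : IsEmpty ((∅ : Finset (Fin n)) : Type) := by
        constructor; rintro ⟨a, ha⟩; simp at ha
      rw [algebraicIndependent_empty_type_iff]
      exact FaithfulSMul.algebraMap_injective ℂ R
    obtain ⟨I, hIS, hImax⟩ := Finset.exists_max_image S Finset.card hS
    simp only [S, Finset.mem_filter, Finset.mem_univ, true_and] at hIS hImax
    exact ⟨I, hIS, hImax⟩
  have hdim : ((I.card : ℕ) : WithBot ℕ∞) ≤ ringKrullDim R := by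
    have h1 := CIT85.card_le_ringKrullDim (k := ℂ) (R := R) (fun i : I => xb i) hI
    rwa [Fintype.card_coe] at h1
  obtain ⟨g, hg0, hg⟩ := key xb I.card hImax
  obtain ⟨G, rfl⟩ := Ideal.Quotient.mk_surjective g
  have hGP : G ∉ P := fun h => hg0 (Ideal.Quotient.eq_zero_iff_mem.mpr h)
  -- the rank of the coordinate functions
  have hrk : ((n - 1 : ℕ) : ℕ∞) ≤ (mat R).eRk (Set.range xb) := by
    obtain ⟨i₀, hi₀⟩ := hgen
    have h1 : (mat R).Indep (Set.range (fun i : {i : Fin n // i ≠ i₀} => xb i.1)) :=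
      (algebraicIndependent_subtype_range hi₀.injective).mpr hi₀
    have h2 : (Set.range (fun i : {i : Fin n // i ≠ i₀} => xb i.1)).encard = ((n - 1 : ℕ) : ℕ∞) := by
      rw [← Set.image_univ, Function.Injective.encard_image hi₀.injective, Set.encard_univ]
      simp
    rw [← h2]
    refine h1.encard_le_eRk_of_subset ?_
    rintro _ ⟨i, rfl⟩
    exact ⟨i.1, rfl⟩
  -- a finite list of multiplicative relations
  obtain ⟨V, hV0, hV⟩ : ∃ V : Finset (Fin n → ℤ), (∀ v ∈ V, v ≠ 0) ∧
      ∀ x : Fin n → ℂ, (∀ i, x i ≠ 0) → (∀ g ∈ P, MvPolynomial.eval x g = 0) →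
        (∃ Λ : Submodule ℤ (Fin n → ℤ),
          ringKrullDim (MvPolynomial (Fin n) ℂ ⧸ P)
              + ((n - Module.finrank ℤ Λ : ℕ) : WithBot ℕ∞) + 1 ≤ (n : WithBot ℕ∞) ∧
          ∀ a ∈ Λ, ∏ i : Fin n, x i ^ a i = 1) →
        eval x G ≠ 0 → ∃ v ∈ V, mon x v = 1 := by
    -- common part
    have common : ∀ x : Fin n → ℂ, (∀ i, x i ≠ 0) → (∀ g ∈ P, MvPolynomial.eval x g = 0) →
        (∃ Λ : Submodule ℤ (Fin n → ℤ),
          ringKrullDim (MvPolynomial (Fin n) ℂ ⧸ P)
              + ((n - Module.finrank ℤ Λ : ℕ) : WithBot ℕ∞) + 1 ≤ (n : WithBot ℕ∞) ∧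
          ∀ a ∈ Λ, ∏ i : Fin n, x i ^ a i = 1) →
        eval x G ≠ 0 → ∃ (h : ℕ) (b : Fin h → ℂ) (ζ : Fin n → ℂ) (A : Fin n → Fin h → ℤ),
          h + I.card + 1 ≤ n ∧ (∀ l, b l ≠ 0) ∧ (∀ i, ∃ N : ℕ, 0 < N ∧ ζ i ^ N = 1) ∧
          (∀ i, x i = ζ i * mon b (A i)) ∧ (mat R).eRk (Set.range xb) ≤ h + I.card ∧
          ((h : ℕ∞) + I.card ≤ (mat R).eRk (Set.range xb) → AlgebraicIndependent ℚ b) := by
      intro x hx hxP ⟨Λ, hΛ, hΛ'⟩ hxG
      obtain ⟨h, b, ζ, A, hh, hb0, hζ, hxb⟩ := exists_param x hx Λ hΛ'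
      let φ : R →ₐ[ℂ] ℂ := Ideal.Quotient.liftₐ P (aeval x) (fun a ha => by
        have := hxP a ha
        rwa [← aeval_eq_eval] at this)
      have hφ : ∀ p, φ (Ideal.Quotient.mk P p) = eval x p := by
        intro p
        rw [← aeval_eq_eval]
        rfl
      have hmem : ∀ i, φ (xb i) ∈ (mat ℂ).closure (Set.range b) := by
        intro i
        rw [hφ, eval_X, hxb i]
        refine closure_mul_mem ?_ ?_
        · obtain ⟨N, hN, hN'⟩ := hζ i
          apply closure_algebraic_mem
          refine IsAlgebraic.of_pow hN ?_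
          rw [hN']
          exact isAlgebraic_one
        · exact closure_prod_mem _ _ fun l _ => closure_zpow_mem
            (CIT60.subset_closure (A := ℂ) (Set.range b) (Set.mem_range_self l)) _
      have h1 := hg φ (by rw [hφ]; exact hxG) h b hmem
      refine ⟨h, b, ζ, A, ?_, hb0, hζ, hxb, h1.1, h1.2⟩
      have h2 : ((I.card : ℕ) : WithBot ℕ∞) + ((n - Module.finrank ℤ Λ : ℕ) : WithBot ℕ∞) + 1 ≤
          (n : WithBot ℕ∞) := by
        refine le_trans ?_ hΛ
        gcongr
      have h3 : I.card + (n - Module.finrank ℤ Λ) + 1 ≤ n := by exact_mod_cast h2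
      omega
    by_cases hall : AlgebraicIndependent ℚ xb
    · refine ⟨∅, by simp, ?_⟩
      intro x hx hxP hΛ hxG
      exfalso
      obtain ⟨h, b, ζ, A, hh, -, -, -, h1, -⟩ := common x hx hxP hΛ hxG
      have h2 : (mat R).Indep (Set.range xb) :=
        (algebraicIndependent_subtype_range hall.injective).mpr hall
      rw [h2.eRk_eq_encard, ← Set.image_univ, Function.Injective.encard_image hall.injective,
        Set.encard_univ] at h1
      simp only [ENat.card_eq_coe_fintype_card, Fintype.card_fin] at h1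
      have h3 : n ≤ h + I.card := by exact_mod_cast h1
      omega
    · rw [algebraicIndependent_iff] at hall
      push Not at hall
      obtain ⟨f, hf0, hf⟩ := hall
      let e : (Fin n →₀ ℕ) → Fin n → ℤ := fun m i => (m i : ℤ)
      let K : ℤ := (f.support.card.factorial : ℤ)
      refine ⟨((f.support ×ˢ f.support).filter (fun p => p.1 ≠ p.2)).image
        (fun p => K • e p.1 - K • e p.2), ?_, ?_⟩
      · intro v hv
        rw [Finset.mem_image] at hv
        obtain ⟨⟨m, m'⟩, hm, rfl⟩ := hv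
        rw [Finset.mem_filter] at hm
        intro h0
        apply hm.2
        rw [← smul_sub] at h0
        have hK : K ≠ 0 := by
          simp only [K]
          exact_mod_cast Nat.factorial_ne_zero _
        rcases smul_eq_zero.mp h0 with h1 | h1
        · exact absurd h1 hK
        · ext i
          have := congrFun h1 i
          simp only [e, Pi.sub_apply, Pi.zero_apply] at this
          simp only
          omega
      · intro x hx hxP hΛ hxG
        obtain ⟨h, b, ζ, A, hh, hb0, hζ, hxb, h1, h2⟩ := common x hx hxP hΛ hxG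
        have hle : (h : ℕ∞) + I.card ≤ ((n - 1 : ℕ) : ℕ∞) := by
          have : h + I.card ≤ n - 1 := by omega
          exact_mod_cast this
        have hb : AlgebraicIndependent ℚ b := h2 (hle.trans hrk)
        have hfx : aeval x f = 0 := by
          have h3 : map (algebraMap ℚ ℂ) f ∈ P := by
            rw [← Ideal.Quotient.eq_zero_iff_mem, ← hf0]
            have h4 : ((Ideal.Quotient.mk P).comp (map (algebraMap ℚ ℂ)) :
                MvPolynomial (Fin n) ℚ →+* R) = (aeval xb : MvPolynomial (Fin n) ℚ →ₐ[ℚ] R) := by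
              apply MvPolynomial.ringHom_ext
              · intro r
                rw [RingHom.comp_apply, map_C, RingHom.coe_coe, aeval_C]
                rfl
              · intro i
                rw [RingHom.comp_apply, map_X, RingHom.coe_coe, aeval_X]
            exact RingHom.congr_fun h4 f
          have h5 := hxP _ h3
          rw [eval_map] at h5
          exact h5
        obtain ⟨m, hm, m', hm', hne, heq⟩ := exists_rel f hf x hfx b hb hb0 ζ hζ A hxb
        refine ⟨K • e m - K • e m', ?_, ?_⟩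
        · rw [Finset.mem_image]
          exact ⟨(m, m'), by simp [hm, hm', hne], rfl⟩
        · have h6 : mon x (K • e m - K • e m') * mon x (K • e m') = mon x (K • e m) := by
            rw [← mon_add hx, sub_add_cancel]
          rw [show mon x (K • e m) = mon x (K • e m') from heq] at h6
          exact mul_right_cancel₀ (mon_ne_zero hx _) (by rw [h6, one_mul])
  -- the polynomial of the exceptional set
  let pos : (Fin n → ℤ) → (Fin n →₀ ℕ) := fun v => Finsupp.equivFunOnFinite.symm fun i => (v i).toNat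
  let B : (Fin n → ℤ) → MvPolynomial (Fin n) ℂ := fun v =>
    monomial (pos v) 1 - monomial (pos (-v)) 1
  have hB : ∀ (v : Fin n → ℤ) (x : Fin n → ℂ), (∀ i, x i ≠ 0) → (eval x (B v) = 0 ↔ mon x v = 1) := by
    intro v x hx
    have hp : ∀ v : Fin n → ℤ, eval x (monomial (pos v) (1 : ℂ)) = ∏ i, x i ^ (v i).toNat := by
      intro v
      rw [eval_monomial, one_mul, Finsupp.prod_fintype _ _ (fun i => pow_zero _)]
      rfl
    have hq : mon x v * ∏ i, x i ^ (-v i).toNat = ∏ i, x i ^ (v i).toNat := by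
      rw [mon, ← Finset.prod_mul_distrib]
      refine Finset.prod_congr rfl fun i _ => ?_
      rw [← zpow_natCast, ← zpow_natCast, ← zpow_add₀ (hx i)]
      congr 1
      omega
    have hne : ∏ i, x i ^ (-v i).toNat ≠ 0 :=
      Finset.prod_ne_zero_iff.mpr fun i _ => pow_ne_zero _ (hx i)
    simp only [B, map_sub, hp, Pi.neg_apply]
    rw [sub_eq_zero, ← hq]
    constructor
    · intro h
      exact mul_right_cancel₀ hne (by rw [h, one_mul])
    · intro h
      rw [h, one_mul]
  have hF := hU (G * ∏ v ∈ V, B v) (by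
    intro x hx hxP hΛ
    rw [map_mul, map_prod]
    by_cases hxG : eval x G = 0
    · rw [hxG, zero_mul]
    · obtain ⟨v, hv, hv'⟩ := hV x hx hxP hΛ hxG
      rw [Finset.prod_eq_zero hv ((hB v x hx).mpr hv'), mul_zero])
  have hFP : (G * ∏ v ∈ V, B v) * ∏ i : Fin n, (X i : MvPolynomial (Fin n) ℂ) ∈ P := by
    have h1 : (G * ∏ v ∈ V, B v) * ∏ i : Fin n, (X i : MvPolynomial (Fin n) ℂ) ∈
        vanishingIdeal ℂ (zeroLocus ℂ P) := by
      rw [mem_vanishingIdeal_iff]
      intro x hx
      rw [mem_zeroLocus_iff] at hx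
      simp only [aeval_eq_eval] at hx ⊢
      by_cases h0 : ∀ i, x i ≠ 0
      · change eval x _ = 0
        rw [map_mul, hF x h0 (fun g hg => hx g hg), zero_mul]
      · push Not at h0
        obtain ⟨i, hi⟩ := h0
        change eval x _ = 0
        rw [map_mul, map_prod, Finset.prod_eq_zero (Finset.mem_univ i) (by rw [eval_X, hi]),
          mul_zero]
    rw [vanishingIdeal_zeroLocus_eq_radical, hP.radical] at h1
    exact h1
  have hFP2 : ∏ v ∈ V, B v ∈ P := by
    rcases hP.mem_or_mem hFP with h1 | h1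
    · rcases hP.mem_or_mem h1 with h2 | h2
      · exact absurd h2 hGP
      · exact h2
    · exact absurd h1 hX
  obtain ⟨v, hv, hvP⟩ := (hP.prod_mem_iff (s := V) (x := B)).mp hFP2
  refine ⟨v, hV0 v hv, fun x hx hxP => ?_⟩
  exact (hB v x hx).mp (hxP _ hvP)

end CIT60.CodimOne
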